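import Pool.Agent.Helper454.Wh.Eval
import Pool.Agent.Helper454.Wh.KSide
import Pool.Agent.Helper454.Wh.Homf.E12

set_option autoImplicit false

open Pool.Agent.Helper454.Kauf (Word Raz KauffmanRules circle IsKnot Isotopic HasWrithe normalised)
open Pool.Agent.Helper454.Wh

namespace Pool.Agent.Results.MP_fd50bc_gt.WhiteheadDegree

/-- `Λ` is Kauffman's regular isotopy invariant with values in `ℤ[a^{±1}, z^{±1}]`: it satisfies
Kauffman's rules and `Λ = 1` for the crossingless circle. -/
def IsKauffmanInvariant (Λ : Word → Raz) : Prop := KauffmanRules Λ ∧ Λ circle = 1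

/-- `F` is the Kauffman polynomial `F_K(a, z) = a^{-w(K)} Λ_K(a, z)` of the knot with the
diagram `K`: there are a Kauffman invariant `Λ` and a writhe `t` of `K`, and `F = a^{-t} Λ(K)` for
all of these. -/
def IsKauffmanPolynomialOf (K : Word) (F : Raz) : Prop :=
  (∃ (Λ : Word → Raz) (t : ℤ), IsKauffmanInvariant Λ ∧ HasWrithe K t) ∧
    ∀ (Λ : Word → Raz) (t : ℤ), IsKauffmanInvariant Λ → HasWrithe K t → F = normalised t (Λ K)

/-- There are a non-trivial knot `K` and a Whitehead double `W` of `K` for which the `m`-degree of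
the HOMFLY polynomial of `W` is greater than `2 f + 2`, where `f` is the `z`-degree of the Kauffman
polynomial of `K`. -/
theorem result :
    ∃ (K : Word) (W : OWord) (F : Raz) (f : ℤ), IsKnot K ∧ ¬ Isotopic K circle ∧
      IsWhiteheadDouble K W ∧ IsKnot (forget W) ∧
      IsKauffmanPolynomialOf K F ∧ IsGreatest (zExponents F) f ∧
      (∃ Λ : OWord → Rlm, IsHomfly Λ) ∧
      ∀ Λ : OWord → Rlm, IsHomfly Λ →
        ∃ p : ℤ, IsGreatest (mExponents (Λ W)) p ∧ 2 * f + 2 < p := by
  refine ⟨KW, W, FK, 12, isKnot_KW, nontrivial_KW,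
    ⟨K1, K2, true, 0, 2, Relation.EqvGen.refl _, by decide, by decide, Relation.EqvGen.refl _⟩,
    ⟨by decide +kernel, by decide +kernel⟩,
    ⟨⟨Pool.Agent.Helper454.Kauf.Ex.Lam Raz, -5, ⟨Pool.Agent.Helper454.Kauf.Ex.Lam_rules,
      Pool.Agent.Helper454.Kauf.Ex.Lam_circle⟩, hasWrithe_KW⟩, ?_⟩, isGreatest_FK,
    Homf.exists_homfly, ?_⟩
  · intro Λ t hΛ ht
    obtain rfl := writhe_unique_KW t ht
    have e : Λ KW = kpoly := by
      rw [value_KW Λ hΛ.1, hΛ.2, smul_eq_mul, mul_one]
    rw [e]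
    rfl
  · intro Λ hΛ
    have h28 := coeff_W hΛ
    have hfin : (mExponents (Λ W)).Finite := by
      refine ((Λ W).coeff.support.finite_toSet).subset ?_
      intro k hk
      exact Finsupp.mem_support_iff.2 hk
    obtain ⟨p, hp, hmax⟩ := hfin.exists_maximal ⟨28, h28⟩
    have hg : ∀ k ∈ mExponents (Λ W), k ≤ p := by
      intro k hk
      rcases le_total k p with h | h
      · exact h
      · exact hmax hk h
    refine ⟨p, ⟨hp, hg⟩, ?_⟩
    have := hg 28 h28
    omega

end Pool.Agent.Results.MP_fd50bc_gt.WhiteheadDegree
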